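import Pool.Agent.Helper70.BN.St2

/-!
# Project BN, module BTOR: invariance under `B`
-/

set_option autoImplicit false

namespace Pool.Agent.Helper42.BN

open Pool.Agent.Helper70.BN Pool.Agent.Helper75.MX Pool.Agent.Helper70.ML

theorem L_avg_of_normal {G : Type} [Group G] [Finite G] (K : Subgroup G) (x : G)
    (h1 : ∀ y ∈ K, x * y * x⁻¹ ∈ K) (h2 : ∀ y ∈ K, x⁻¹ * y * x ∈ K) (f : G → ℝ) (hf : L x f = f) :
    L x (avg K f) = avg K f := by
  rw [avg, L_smul]
  congr 1
  haveI : Fintype K := Fintype.ofFinite _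
  rw [finsum_eq_sum_of_fintype, L_sum]
  let e : K ≃ K :=
    { toFun := fun y => ⟨x * y * x⁻¹, h1 y y.2⟩
      invFun := fun y => ⟨x⁻¹ * y * x, h2 y y.2⟩
      left_inv := by
        intro y
        apply Subtype.ext
        show x⁻¹ * (x * (y : G) * x⁻¹) * x = y
        group
      right_inv := by
        intro y
        apply Subtype.ext
        show x * (x⁻¹ * (y : G) * x) * x⁻¹ = y
        group }
  rw [← Equiv.sum_comp e (fun y : K => L (y : G) f)]
  apply Finset.sum_congr rfl
  intro y _
  show L x (L (y : G) f) = L (x * (y : G) * x⁻¹) f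
  have hx : L x⁻¹ f = f := by
    have : x ∈ stab f := mem_stab.2 hf
    exact mem_stab.1 ((stab f).inv_mem this)
  rw [Pool.Agent.Helper75.MX.L_mul, Pool.Agent.Helper75.MX.L_mul, hx]

theorem hBTOR (hAVG : StAVG) (hBAVG : StBAVG) : StBTOR := by
  intro G _ _ k
  induction k with
  | zero =>
    intro Lt At κ _ _ f
    refine ⟨f, ?_, ?_⟩
    · simpa using Reach.refl f
    · exact iSup_le fun j => j.elim0
  | succ k ih =>
    intro Lt At κ h1 h2 f
    obtain ⟨F', hF, hs⟩ := ih (fun j => Lt j.succ) (fun j => At j.succ) (fun j => κ j.succ)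
      (fun j => h1 j.succ)
      (fun i j hij x hx y hy => h2 i.succ j.succ (Fin.succ_lt_succ_iff.2 hij) x hx y hy) f
    have hr := hAVG G (Lt 0) (κ 0) (h1 0).1 F'
    refine ⟨avg (Lt 0) F', ?_, ?_⟩
    · have h3 := hF.trans hr
      rw [Fin.sum_univ_succ, add_comm]
      exact h3
    · apply iSup_le
      intro j
      refine Fin.cases ?_ (fun j => ?_) j
      · exact (h1 0).2.trans ((hBAVG G (Lt 0)).1 F')
      · intro x hx
        have hx1 : L x F' = F' :=
          mem_stab.1 (hs ((le_iSup (fun j : Fin k => At j.succ) j) hx))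
        refine mem_stab.2 (L_avg_of_normal (Lt 0) x ?_ ?_ F' hx1)
        · intro y hy
          exact h2 0 j.succ (Fin.succ_pos j) x hx y hy
        · intro y hy
          have h4 := h2 0 j.succ (Fin.succ_pos j) x⁻¹ ((At j.succ).inv_mem hx) y hy
          rwa [inv_inv] at h4

end Pool.Agent.Helper42.BN
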